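import Pool.Agent.helper95.RF.SpecC3

/-!
# RF (MP_16912e_nt), stage 2, block C': row GKN (the number of the `k`)
-/

set_option autoImplicit false

namespace Pool.Agent.RF

open Finset NumberField Pool.Agent.helper3.FT

/-- integers `≤ n` in one class modulo `m` -/
theorem GKN_class (n m : ℕ) (T : Finset ℕ) (hT : ∀ x ∈ T, x ≤ n) (hd : ∀ x ∈ T, ∀ y ∈ T, (m : ℤ) ∣ (x : ℤ) - y) : T.card ≤ n / m + 1 := by
  classical
  have h1 : T.card = (T.image fun x => x / m).card := by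
    refine (Finset.card_image_of_injOn ?_).symm
    intro x hx y hy hxy
    simp only at hxy
    have h2 := hd x hx y hy
    have h3 : x % m = y % m := by
      have h4 : (x : ℤ) ≡ y [ZMOD m] := (Int.modEq_iff_dvd.2 (hd y hy x hx))
      exact (Int.natCast_modEq_iff.1 h4)
    rw [← Nat.div_add_mod x m, ← Nat.div_add_mod y m, hxy, h3]
  rw [h1]
  have h2 : (T.image fun x => x / m) ⊆ Finset.range (n / m + 1) := by
    intro z hz
    obtain ⟨x, hx, rfl⟩ := Finset.mem_image.1 hz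
    exact Finset.mem_range.2 (Nat.lt_succ_of_le (Nat.div_le_div_right (hT x hx)))
  exact (Finset.card_le_card h2).trans (by rw [Finset.card_range])

/-- the number in real form -/
theorem GKN_real (X : ℝ) (m : ℕ) (hm : 1 ≤ m) (hX : (m : ℝ) ≤ X) (T : Finset ℕ) (hT : ∀ x ∈ T, x ≤ ⌊X⌋₊) (hd : ∀ x ∈ T, ∀ y ∈ T, (m : ℤ) ∣ (x : ℤ) - y) :
    (T.card : ℝ) ≤ 2 * X / m := by
  have hm0 : (0 : ℝ) < m := by exact_mod_cast hm
  have h1 : (T.card : ℝ) ≤ ((⌊X⌋₊ / m + 1 : ℕ) : ℝ) := by exact_mod_cast GKN_class _ m T hT hd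
  refine h1.trans ?_
  have h2 : ((⌊X⌋₊ / m : ℕ) : ℝ) ≤ X / m := by
    refine (Nat.cast_div_le).trans ?_
    exact div_le_div_of_nonneg_right (Nat.floor_le (hm0.le.trans hX)) hm0.le
  have h3 : 1 ≤ X / m := by rw [le_div_iff₀ hm0]; linarith
  push_cast
  calc ((⌊X⌋₊ / m : ℕ) : ℝ) + 1 ≤ X / m + X / m := add_le_add h2 h3
    _ = 2 * X / m := by ring

/-- the `x` for one `y` -/
theorem GKN_one (X : ℝ) (e l : ℕ) (he : 1 ≤ e) (hl : l.Prime) (hc : Nat.Coprime l e) (hX : (e : ℝ) * l ≤ X) (y : ℕ) (T : Finset ℕ) (hT : ∀ x ∈ T, x ≤ ⌊X⌋₊)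
    (h1 : ∀ x ∈ T, (e : ℤ) ∣ (x : ℤ) - 1) (h2 : ∀ x ∈ T, (l : ℤ) ∣ (x : ℤ) * x + x * y - y * y) : (T.card : ℝ) ≤ 4 * X / (e * l) := by
  classical
  have hel : 1 ≤ e * l := Nat.mul_pos he hl.pos
  have hel' : ((e * l : ℕ) : ℝ) ≤ X := by push_cast; exact hX
  have hX0 : 0 ≤ X := le_trans (by positivity) hX
  have hco : IsCoprime (e : ℤ) (l : ℤ) := by
    have := hc.symm
    exact Nat.isCoprime_iff_coprime.2 this
  rcases T.eq_empty_or_nonempty with rfl | ⟨x1, hx1⟩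
  · simp only [Finset.card_empty, Nat.cast_zero]
    positivity
  · have hsub : T ⊆ T.filter (fun x : ℕ => (l : ℤ) ∣ (x : ℤ) - x1) ∪ T.filter (fun x : ℕ => (l : ℤ) ∣ (x : ℤ) + x1 + y) := by
      intro x hx
      have h3 : (l : ℤ) ∣ ((x : ℤ) - x1) * ((x : ℤ) + x1 + y) := by
        have h4 := dvd_sub (h2 x hx) (h2 x1 hx1)
        have h5 : (x : ℤ) * x + x * y - y * y - ((x1 : ℤ) * x1 + x1 * y - y * y) = ((x : ℤ) - x1) * ((x : ℤ) + x1 + y) := by ring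
        rwa [h5] at h4
      rcases (Nat.prime_iff_prime_int.1 hl).dvd_or_dvd h3 with h | h
      · exact Finset.mem_union_left _ (Finset.mem_filter.2 ⟨hx, h⟩)
      · exact Finset.mem_union_right _ (Finset.mem_filter.2 ⟨hx, h⟩)
    have ha : ((T.filter (fun x : ℕ => (l : ℤ) ∣ (x : ℤ) - x1)).card : ℝ) ≤ 2 * X / (e * l : ℕ) := by
      refine GKN_real X (e * l) hel hel' _ (fun x hx => hT x (Finset.mem_filter.1 hx).1) fun x hx z hz => ?_
      obtain ⟨a1, a2⟩ := Finset.mem_filter.1 hx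
      obtain ⟨b1, b2⟩ := Finset.mem_filter.1 hz
      push_cast
      refine hco.mul_dvd ?_ ?_
      · have := dvd_sub (h1 x a1) (h1 z b1)
        have e1 : (x : ℤ) - 1 - ((z : ℤ) - 1) = (x : ℤ) - z := by ring
        rwa [e1] at this
      · have := dvd_sub a2 b2
        have e1 : (x : ℤ) - x1 - ((z : ℤ) - x1) = (x : ℤ) - z := by ring
        rwa [e1] at this
    have hb : ((T.filter (fun x : ℕ => (l : ℤ) ∣ (x : ℤ) + x1 + y)).card : ℝ) ≤ 2 * X / (e * l : ℕ) := by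
      refine GKN_real X (e * l) hel hel' _ (fun x hx => hT x (Finset.mem_filter.1 hx).1) fun x hx z hz => ?_
      obtain ⟨a1, a2⟩ := Finset.mem_filter.1 hx
      obtain ⟨b1, b2⟩ := Finset.mem_filter.1 hz
      push_cast
      refine hco.mul_dvd ?_ ?_
      · have := dvd_sub (h1 x a1) (h1 z b1)
        have e1 : (x : ℤ) - 1 - ((z : ℤ) - 1) = (x : ℤ) - z := by ring
        rwa [e1] at this
      · have := dvd_sub a2 b2
        have e1 : (x : ℤ) + x1 + y - ((z : ℤ) + x1 + y) = (x : ℤ) - z := by ring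
        rwa [e1] at this
    have hu : (T.card : ℝ) ≤ (T.filter (fun x : ℕ => (l : ℤ) ∣ (x : ℤ) - x1)).card + (T.filter (fun x : ℕ => (l : ℤ) ∣ (x : ℤ) + x1 + y)).card := by
      exact_mod_cast (Finset.card_le_card hsub).trans (Finset.card_union_le _ _)
    calc (T.card : ℝ) ≤ 2 * X / (e * l : ℕ) + 2 * X / (e * l : ℕ) := hu.trans (add_le_add ha hb)
      _ = 4 * X / (e * l) := by push_cast; ring

/-- pairs counted by the second coordinate -/
theorem GKN_pairs (P : Finset (ℕ × ℕ)) (Y : Finset ℕ) (A B : ℝ) (hB : 0 ≤ B) (hY : ∀ p ∈ P, p.2 ∈ Y) (hA : (Y.card : ℝ) ≤ A) (T : ℕ → Finset ℕ)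
    (hT : ∀ p ∈ P, p.1 ∈ T p.2) (hTB : ∀ y, ((T y).card : ℝ) ≤ B) : (P.card : ℝ) ≤ A * B := by
  classical
  have h1 : P ⊆ Y.biUnion fun y => (T y).image fun x => (x, y) := by
    intro p hp
    exact Finset.mem_biUnion.2 ⟨p.2, hY p hp, Finset.mem_image.2 ⟨p.1, hT p hp, rfl⟩⟩
  have h2 : P.card ≤ ∑ y ∈ Y, (T y).card := by
    refine (Finset.card_le_card h1).trans (Finset.card_biUnion_le.trans ?_)
    exact Finset.sum_le_sum fun y _ => Finset.card_image_le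
  calc (P.card : ℝ) ≤ ((∑ y ∈ Y, (T y).card : ℕ) : ℝ) := by exact_mod_cast h2
    _ = ∑ y ∈ Y, ((T y).card : ℝ) := by push_cast; rfl
    _ ≤ ∑ _y ∈ Y, B := Finset.sum_le_sum fun y _ => hTB y
    _ = Y.card * B := by rw [Finset.sum_const, nsmul_eq_mul]
    _ ≤ A * B := mul_le_mul_of_nonneg_right hA hB

theorem GKN (h1 : T6.EPC_stmt) : GKN_stmt := by
  classical
  obtain ⟨c, hc, hE⟩ := h1
  refine ⟨c, 8, hc, by norm_num, fun e he => ?_⟩
  obtain ⟨X₀, hX₀⟩ := hE e he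
  have he0 : (0 : ℝ) < e := by exact_mod_cast he
  refine ⟨max (2 * X₀) (max e 1), fun X hX => ?_⟩
  have ha : 2 * X₀ ≤ X := (le_max_left _ _).trans hX
  have hb : (e : ℝ) ≤ X := (le_max_left _ _).trans ((le_max_right _ _).trans hX)
  have hd : (1 : ℝ) ≤ X := (le_max_right _ _).trans ((le_max_right _ _).trans hX)
  obtain ⟨P, hP⟩ : ∃ P : Finset (ℕ × ℕ), P = (Icc 1 ⌊X⌋₊ ×ˢ Icc 1 ⌊X⌋₊).filter (fun p => 98 / 100 * X < p.1 ∧ (p.1 : ℝ) ≤ X ∧ 8 / 100 * X < p.2 ∧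
    (p.2 : ℝ) ≤ 85 / 1000 * X ∧ Nat.Coprime p.1 p.2 ∧ (e : ℤ) ∣ (p.1 : ℤ) - 1 ∧ (e : ℤ) ∣ (p.2 : ℤ) - 1) := ⟨_, rfl⟩
  have hKT : KT X e = P.image (fun p => (⟨(p.1 : ℤ), (p.2 : ℤ)⟩ : OO)) := by rw [hP]; rfl
  have hPm : ∀ p ∈ P, p.1 ≤ ⌊X⌋₊ ∧ p.2 ≤ ⌊X⌋₊ ∧ (e : ℤ) ∣ (p.1 : ℤ) - 1 ∧ (e : ℤ) ∣ (p.2 : ℤ) - 1 := by
    intro p hp
    rw [hP] at hp
    obtain ⟨a1, a2⟩ := Finset.mem_filter.1 hp
    obtain ⟨a3, a4⟩ := Finset.mem_product.1 a1
    exact ⟨(Finset.mem_Icc.1 a3).2, (Finset.mem_Icc.1 a4).2, a2.2.2.2.2.2.1, a2.2.2.2.2.2.2⟩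
  have hYc : ∀ T : Finset ℕ, (∀ x ∈ T, x ≤ ⌊X⌋₊) → (∀ x ∈ T, (e : ℤ) ∣ (x : ℤ) - 1) → (T.card : ℝ) ≤ 2 * X / e := by
    intro T hT hT1
    refine GKN_real X e he hb T hT fun x hx z hz => ?_
    have := dvd_sub (hT1 x hx) (hT1 z hz)
    have e1 : (x : ℤ) - 1 - ((z : ℤ) - 1) = (x : ℤ) - z := by ring
    rwa [e1] at this
  obtain ⟨Y, hY⟩ : ∃ Y : Finset ℕ, Y = (Finset.range (⌊X⌋₊ + 1)).filter (fun x : ℕ => (e : ℤ) ∣ (x : ℤ) - 1) := ⟨_, rfl⟩
  have hYcard : (Y.card : ℝ) ≤ 2 * X / e := by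
    refine hYc Y (fun x hx => ?_) (fun x hx => ?_)
    · rw [hY] at hx
      exact Nat.lt_succ_iff.1 (Finset.mem_range.1 (Finset.mem_filter.1 hx).1)
    · rw [hY] at hx
      exact (Finset.mem_filter.1 hx).2
  have hPY : ∀ p ∈ P, p.2 ∈ Y := by
    intro p hp
    obtain ⟨a1, a2, a3, a4⟩ := hPm p hp
    rw [hY]
    exact Finset.mem_filter.2 ⟨Finset.mem_range.2 (Nat.lt_succ_of_le a2), a4⟩
  refine ⟨?_, ?_, ?_⟩
  · have h2 := hX₀ (2 * X) (X / 2) (by linarith) (by linarith) P (by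
      intro n k b1 b2 b3 b4 b5 b6 b7
      rw [hP]
      have hn : (n : ℝ) ≤ X := by linarith
      have hk : (k : ℝ) ≤ X := by linarith
      refine Finset.mem_filter.2 ⟨Finset.mem_product.2 ⟨Finset.mem_Icc.2 ⟨?_, Nat.le_floor hn⟩, Finset.mem_Icc.2 ⟨?_, Nat.le_floor hk⟩⟩, by linarith, hn, by linarith, by linarith, b5, b6, b7⟩
      · by_contra h
        have h3 : n = 0 := by simp only at h; omega
        rw [h3] at b1
        simp only [Nat.cast_zero] at b1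
        linarith
      · by_contra h
        have h3 : k = 0 := by simp only at h; omega
        rw [h3] at b3
        simp only [Nat.cast_zero] at b3
        linarith)
    have h3 : (KT X e).card = P.card := by
      rw [hKT]
      refine Finset.card_image_of_injective _ ?_
      rintro ⟨a, b⟩ ⟨a', b'⟩ h
      simp only [QuadraticAlgebra.mk.injEq, Nat.cast_inj] at h
      rw [h.1, h.2]
    rw [h3]
    refine le_trans (le_of_eq ?_) h2
    ring
  · have h2 : ((KT X e).card : ℝ) ≤ P.card := by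
      rw [hKT]
      exact_mod_cast Finset.card_image_le
    refine h2.trans ?_
    have h3 := GKN_pairs P Y (2 * X / e) (2 * X / e) (by positivity) hPY hYcard (fun _ => Y) (fun p hp => by
      obtain ⟨a1, a2, a3, a4⟩ := hPm p hp
      rw [hY]
      exact Finset.mem_filter.2 ⟨Finset.mem_range.2 (Nat.lt_succ_of_le a1), a3⟩) (fun _ => hYcard)
    refine h3.trans ?_
    have h4 : 2 * X / e * (2 * X / e) = 4 * X ^ 2 / (e : ℝ) ^ 2 := by
      field_simp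
      ring
    rw [h4]
    gcongr
    norm_num
  · intro l hl hle hel
    have h2 : (((KT X e).filter (fun k => (l : ℤ) ∣ k.norm)).card : ℝ) ≤ (P.filter (fun p : ℕ × ℕ => (l : ℤ) ∣ (p.1 : ℤ) * p.1 + p.1 * p.2 - p.2 * p.2)).card := by
      rw [hKT, Finset.filter_image]
      refine Nat.cast_le.2 (Finset.card_image_le.trans (Finset.card_le_card ?_))
      intro p hp
      obtain ⟨a1, a2⟩ := Finset.mem_filter.1 hp
      refine Finset.mem_filter.2 ⟨a1, ?_⟩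
      rw [QuadraticAlgebra.norm_def] at a2
      simp only [one_mul] at a2
      exact a2
    refine h2.trans ?_
    have h3 := GKN_pairs (P.filter (fun p : ℕ × ℕ => (l : ℤ) ∣ (p.1 : ℤ) * p.1 + p.1 * p.2 - p.2 * p.2)) Y (2 * X / e) (4 * X / (e * l)) (by positivity)
      (fun p hp => hPY p (Finset.mem_filter.1 hp).1) hYcard
      (fun y => (Finset.range (⌊X⌋₊ + 1)).filter (fun x : ℕ => (e : ℤ) ∣ (x : ℤ) - 1 ∧ (l : ℤ) ∣ (x : ℤ) * x + x * y - y * y)) (fun p hp => by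
        obtain ⟨a1, a2⟩ := Finset.mem_filter.1 hp
        obtain ⟨b1, b2, b3, b4⟩ := hPm p a1
        exact Finset.mem_filter.2 ⟨Finset.mem_range.2 (Nat.lt_succ_of_le b1), b3, a2⟩) (fun y =>
        GKN_one X e l he hl hle hel y _ (fun x hx => Nat.lt_succ_iff.1 (Finset.mem_range.1 (Finset.mem_filter.1 hx).1))
          (fun x hx => (Finset.mem_filter.1 hx).2.1) (fun x hx => (Finset.mem_filter.1 hx).2.2))
    refine h3.trans (le_of_eq ?_)
    have hl0 : (0 : ℝ) < l := by exact_mod_cast hl.pos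
    field_simp
    ring

end Pool.Agent.RF
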